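import Pool.Agent.Helper71.P4.St

/-!
# MP_3dd6d4_an, project P4: module J
-/

set_option autoImplicit false

open MeasureTheory Set Filter Topology
open scoped ENNReal

noncomputable section

namespace Helper71.P4

open Helper69.CR

private theorem pp_cont_J (n : ℕ) : Continuous (pp n) := by
  unfold pp
  fun_prop

/-- `t^{-5/4} (1-t)^{-3/4}` -/
private def aJ (t : ℝ) : ℝ≥0∞ := ENNReal.ofReal (t ^ (-(5 / 4) : ℝ) * (1 - t) ^ (-(3 / 4) : ℝ))

/-- `s^{-1/4} (1-s)^{-3/4}` -/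
private def bJ (s : ℝ) : ℝ≥0∞ := ENNReal.ofReal (s ^ (-(1 / 4) : ℝ) * (1 - s) ^ (-(3 / 4) : ℝ))

private theorem aJ_meas : Measurable aJ := by
  unfold aJ
  fun_prop

private theorem bJ_meas : Measurable bJ := by
  unfold bJ
  fun_prop

/-- Tonelli on the triangle -/
private theorem tri_J (a b : ℝ → ℝ≥0∞) (ha : Measurable a) (hb : Measurable b) :
    ∫⁻ t in Ioo (0 : ℝ) 1, a t * ∫⁻ s in Ioo (0 : ℝ) t, b s =
      ∫⁻ s in Ioo (0 : ℝ) 1, b s * ∫⁻ t in Ioo s 1, a t := by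
  have h1 : ∀ t ∈ Ioo (0 : ℝ) 1, a t * ∫⁻ s in Ioo (0 : ℝ) t, b s =
      ∫⁻ s in Ioo (0 : ℝ) 1, (if s < t then a t * b s else 0) := by
    intro t ht
    have h2 : ∫⁻ s in Ioo (0 : ℝ) 1, (if s < t then a t * b s else 0) =
        ∫⁻ s in Ioo (0 : ℝ) 1, (Iio t).indicator (fun s => a t * b s) s := by
      refine lintegral_congr fun s => ?_
      by_cases h : s < t
      · simp [h]
      · simp [h]
    rw [h2, lintegral_indicator measurableSet_Iio, Measure.restrict_restrict measurableSet_Iio]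
    have h3 : Iio t ∩ Ioo (0 : ℝ) 1 = Ioo 0 t := by
      ext x
      simp only [mem_inter_iff, mem_Iio, mem_Ioo]
      exact ⟨fun h => ⟨h.2.1, h.1⟩, fun h => ⟨h.2, h.1, h.2.trans ht.2⟩⟩
    rw [h3, lintegral_const_mul _ hb]
  have h4 : ∀ s ∈ Ioo (0 : ℝ) 1, b s * ∫⁻ t in Ioo s 1, a t =
      ∫⁻ t in Ioo (0 : ℝ) 1, (if s < t then a t * b s else 0) := by
    intro s hs
    have h2 : ∫⁻ t in Ioo (0 : ℝ) 1, (if s < t then a t * b s else 0) =
        ∫⁻ t in Ioo (0 : ℝ) 1, (Ioi s).indicator (fun t => a t * b s) t := by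
      refine lintegral_congr fun t => ?_
      by_cases h : s < t
      · simp [h]
      · simp [h]
    rw [h2, lintegral_indicator measurableSet_Ioi, Measure.restrict_restrict measurableSet_Ioi]
    have h3 : Ioi s ∩ Ioo (0 : ℝ) 1 = Ioo s 1 := by
      ext x
      simp only [mem_inter_iff, mem_Ioi, mem_Ioo]
      exact ⟨fun h => ⟨h.1, h.2.2⟩, fun h => ⟨h.1, hs.1.trans h.1, h.2⟩⟩
    rw [h3, lintegral_mul_const _ ha, mul_comm]
  rw [setLIntegral_congr_fun measurableSet_Ioo h1, setLIntegral_congr_fun measurableSet_Ioo h4]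
  refine lintegral_lintegral_swap (Measurable.aemeasurable ?_)
  refine Measurable.ite ?_ ?_ measurable_const
  · exact measurableSet_lt measurable_snd measurable_fst
  · exact (ha.comp measurable_fst).mul (hb.comp measurable_snd)

/-- the substitution `s = t v` -/
private theorem sub_J (t : ℝ) (ht : t ∈ Ioo (0 : ℝ) 1) :
    ∫⁻ s in Ioo (0 : ℝ) t, bJ s = ENNReal.ofReal (t ^ ((3 / 4) : ℝ)) *
      ∫⁻ v in Ioo (0 : ℝ) 1,
        ENNReal.ofReal (v ^ (-(1 / 4) : ℝ) * (1 - t * v) ^ (-(3 / 4) : ℝ)) := by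
  have himg : (fun v : ℝ => t * v) '' Ioo (0 : ℝ) 1 = Ioo 0 t := by
    ext x
    simp only [mem_image, mem_Ioo]
    constructor
    · rintro ⟨v, ⟨h1, h2⟩, rfl⟩
      exact ⟨mul_pos ht.1 h1, by nlinarith [ht.1]⟩
    · rintro ⟨h1, h2⟩
      exact ⟨x / t, ⟨div_pos h1 ht.1, (div_lt_one ht.1).2 h2⟩, by field_simp [ht.1.ne']⟩
  rw [← himg, lintegral_image_eq_lintegral_abs_deriv_mul (f' := fun _ => t) measurableSet_Ioo
    (fun x _ => by simpa using ((hasDerivAt_id x).const_mul t).hasDerivWithinAt)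
    (fun x _ y _ h => mul_left_cancel₀ ht.1.ne' h)]
  rw [← lintegral_const_mul' _ _ ENNReal.ofReal_ne_top]
  refine setLIntegral_congr_fun measurableSet_Ioo fun v hv => ?_
  have hv1 : 0 < 1 - t * v := by nlinarith [ht.1, ht.2, hv.1, hv.2]
  simp only [bJ]
  rw [abs_of_pos ht.1, ← ENNReal.ofReal_mul ht.1.le,
    ← ENNReal.ofReal_mul (Real.rpow_nonneg ht.1.le _)]
  congr 1
  rw [Real.mul_rpow ht.1.le hv.1.le]
  have h1 : t * t ^ (-(1 / 4) : ℝ) = t ^ ((3 / 4) : ℝ) := by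
    conv_lhs => rw [← Real.rpow_one t]
    rw [← Real.rpow_mul ht.1.le, ← Real.rpow_add ht.1]
    norm_num
  rw [← h1]
  ring

/-- the double integral of the comparison kernel -/
private theorem ker_J (h : StKER) :
    ∫⁻ t in Ioo (0 : ℝ) 1, aJ t * ∫⁻ s in Ioo (0 : ℝ) t, bJ s =
      ENNReal.ofReal (4 * Real.pi) := by
  rw [tri_J aJ bJ aJ_meas bJ_meas]
  obtain ⟨k1, -, k3, -⟩ := h
  have h1 : ∀ s ∈ Ioo (0 : ℝ) 1, bJ s * ∫⁻ t in Ioo s 1, aJ t =
      4 * ENNReal.ofReal ((s * (1 - s)) ^ (-(1 / 2) : ℝ)) := by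
    intro s hs
    have hs1 : 0 < 1 - s := by linarith [hs.2]
    have h2 : ∫⁻ t in Ioo s 1, aJ t = ENNReal.ofReal (4 * ((1 - s) / s) ^ ((1 / 4) : ℝ)) :=
      k1 s hs.1 hs.2
    rw [h2]
    simp only [bJ]
    rw [← ENNReal.ofReal_mul (by have := hs.1; positivity)]
    have h4 : (4 : ℝ≥0∞) = ENNReal.ofReal 4 := by norm_num
    rw [h4, ← ENNReal.ofReal_mul (by norm_num)]
    congr 1
    rw [Real.div_rpow hs1.le hs.1.le, Real.mul_rpow hs.1.le hs1.le]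
    have e1 : s ^ (-(1 / 2) : ℝ) = s ^ (-(1 / 4) : ℝ) / s ^ ((1 / 4) : ℝ) := by
      rw [← Real.rpow_sub hs.1]; norm_num
    have e2 : (1 - s) ^ (-(1 / 2) : ℝ) = (1 - s) ^ (-(3 / 4) : ℝ) * (1 - s) ^ ((1 / 4) : ℝ) := by
      rw [← Real.rpow_add hs1]; norm_num
    rw [e1, e2]
    ring
  rw [setLIntegral_congr_fun measurableSet_Ioo h1,
    lintegral_const_mul' _ _ (by norm_num), k3]
  have h4 : (4 : ℝ≥0∞) = ENNReal.ofReal 4 := by norm_num
  rw [h4, ← ENNReal.ofReal_mul (by norm_num)]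

/-- the pointwise inequality -/
private theorem pt_J (x y s t : ℝ) (hs : 0 < s) (hst : s < t) (ht : t < 1) :
    |x| * |y| / t ≤ 1 / 2 * (y ^ 2 * (t ^ (-(3 / 4) : ℝ) * (1 - t) ^ ((3 / 4) : ℝ)) *
      (s ^ (-(1 / 4) : ℝ) * (1 - s) ^ (-(3 / 4) : ℝ)) +
      t ^ (-(5 / 4) : ℝ) * (1 - t) ^ (-(3 / 4) : ℝ) *
        (x ^ 2 * (s ^ ((1 / 4) : ℝ) * (1 - s) ^ ((3 / 4) : ℝ)))) := by
  have ht0 : 0 < t := hs.trans hst
  have ht1 : 0 < 1 - t := by linarith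
  have hs1 : 0 < 1 - s := by linarith
  set A := t ^ (-(3 / 4) : ℝ) * (1 - t) ^ ((3 / 4) : ℝ) *
    (s ^ (-(1 / 4) : ℝ) * (1 - s) ^ (-(3 / 4) : ℝ)) with hA
  set B := t ^ (-(5 / 4) : ℝ) * (1 - t) ^ (-(3 / 4) : ℝ) *
    (s ^ ((1 / 4) : ℝ) * (1 - s) ^ ((3 / 4) : ℝ)) with hB
  have hA0 : 0 < A := by positivity
  have hB0 : 0 < B := by positivity
  have hAB : A * B = (1 / t) ^ 2 := by
    have e1 : t ^ (-(3 / 4) : ℝ) * t ^ (-(5 / 4) : ℝ) = (1 / t) ^ 2 := by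
      rw [← Real.rpow_add ht0]
      have : (-(3 / 4) : ℝ) + -(5 / 4) = ((-2 : ℤ) : ℝ) := by norm_num
      rw [this, Real.rpow_intCast, one_div, inv_pow]
      rfl
    have e2 : (1 - t) ^ ((3 / 4) : ℝ) * (1 - t) ^ (-(3 / 4) : ℝ) = 1 := by
      rw [← Real.rpow_add ht1]; norm_num
    have e3 : s ^ (-(1 / 4) : ℝ) * s ^ ((1 / 4) : ℝ) = 1 := by
      rw [← Real.rpow_add hs]; norm_num
    have e4 : (1 - s) ^ (-(3 / 4) : ℝ) * (1 - s) ^ ((3 / 4) : ℝ) = 1 := by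
      rw [← Real.rpow_add hs1]; norm_num
    calc A * B = (t ^ (-(3 / 4) : ℝ) * t ^ (-(5 / 4) : ℝ)) *
          ((1 - t) ^ ((3 / 4) : ℝ) * (1 - t) ^ (-(3 / 4) : ℝ)) *
          (s ^ (-(1 / 4) : ℝ) * s ^ ((1 / 4) : ℝ)) *
          ((1 - s) ^ (-(3 / 4) : ℝ) * (1 - s) ^ ((3 / 4) : ℝ)) := by rw [hA, hB]; ring
      _ = (1 / t) ^ 2 := by rw [e1, e2, e3, e4]; ring
  have hsq : Real.sqrt A * Real.sqrt B = 1 / t := by
    rw [← Real.sqrt_mul hA0.le, hAB, Real.sqrt_sq (by positivity)]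
  have h1 : 0 ≤ (Real.sqrt A * |y| - Real.sqrt B * |x|) ^ 2 := sq_nonneg _
  have h2 : (Real.sqrt A * |y| - Real.sqrt B * |x|) ^ 2 =
      A * y ^ 2 + B * x ^ 2 - 2 * (|x| * |y| / t) := by
    have e5 : Real.sqrt A ^ 2 = A := Real.sq_sqrt hA0.le
    have e6 : Real.sqrt B ^ 2 = B := Real.sq_sqrt hB0.le
    calc (Real.sqrt A * |y| - Real.sqrt B * |x|) ^ 2 =
        Real.sqrt A ^ 2 * |y| ^ 2 + Real.sqrt B ^ 2 * |x| ^ 2 -
          2 * (|x| * |y| * (Real.sqrt A * Real.sqrt B)) := by ring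
      _ = A * y ^ 2 + B * x ^ 2 - 2 * (|x| * |y| / t) := by
          rw [e5, e6, hsq, sq_abs, sq_abs]; ring
  have h3 : y ^ 2 * (t ^ (-(3 / 4) : ℝ) * (1 - t) ^ ((3 / 4) : ℝ)) *
      (s ^ (-(1 / 4) : ℝ) * (1 - s) ^ (-(3 / 4) : ℝ)) = A * y ^ 2 := by rw [hA]; ring
  have h4 : t ^ (-(5 / 4) : ℝ) * (1 - t) ^ (-(3 / 4) : ℝ) *
        (x ^ 2 * (s ^ ((1 / 4) : ℝ) * (1 - s) ^ ((3 / 4) : ℝ))) = B * x ^ 2 := by rw [hB]; ring
  rw [h3, h4]
  linarith

theorem hJ : StX0 → StGEN → StPS → StKER → StJ := by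
  intro hX0 hGEN hPS hKER n hn
  have hp := pp_cont_J n
  -- weights
  set d : ℝ → ℝ≥0∞ := fun t =>
    ENNReal.ofReal (pp n t ^ 2 * (t ^ (-(3 / 4) : ℝ) * (1 - t) ^ ((3 / 4) : ℝ))) with hd
  set c : ℝ → ℝ≥0∞ := fun s =>
    ENNReal.ofReal (pp n s ^ 2 * (s ^ ((1 / 4) : ℝ) * (1 - s) ^ ((3 / 4) : ℝ))) with hc
  have hdm : Measurable d := by
    rw [hd]
    have := hp.measurable
    fun_prop
  have hcm : Measurable c := by
    rw [hc]
    have := hp.measurable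
    fun_prop
  set H : ℝ → ℝ≥0∞ := fun t => ∫⁻ s in Ioo (0 : ℝ) t, bJ s with hH
  have hHm : Measurable H := by
    refine Monotone.measurable fun x y hxy => ?_
    exact lintegral_mono_set (Ioo_subset_Ioo_right hxy)
  -- first part
  have hI1 : ∫⁻ t in Ioo (0 : ℝ) 1, d t * H t ≤ ENNReal.ofReal (2 * n) := by
    set F : ℝ → ℝ≥0∞ := fun t => ENNReal.ofReal ((1 - t) ^ (-(1 / 4) : ℝ)) *
      ∫⁻ v in Ioo (0 : ℝ) 1,
        ENNReal.ofReal (v ^ (-(1 / 4) : ℝ) * (1 - t * v) ^ (-(3 / 4) : ℝ)) with hF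
    have hFPS : PS F := hPS.2.1 _ _ (hPS.1 (1 / 4) (by norm_num)) hPS.2.2
    have h1 : ∀ t ∈ Ioo (0 : ℝ) 1, d t * H t = ENNReal.ofReal ((1 - t) * pp n t ^ 2) * F t := by
      intro t ht
      have ht1 : 0 < 1 - t := by linarith [ht.2]
      simp only [hd, hH, hF]
      rw [sub_J t ht, ← mul_assoc (ENNReal.ofReal _) (ENNReal.ofReal _),
        ← mul_assoc (ENNReal.ofReal _) (ENNReal.ofReal _),
        ← ENNReal.ofReal_mul (by have := ht.1; positivity),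
        ← ENNReal.ofReal_mul (by positivity)]
      congr 2
      have e1 : t ^ (-(3 / 4) : ℝ) * t ^ ((3 / 4) : ℝ) = 1 := by
        rw [← Real.rpow_add ht.1]; norm_num
      have e2 : (1 - t) ^ ((3 / 4) : ℝ) = (1 - t) * (1 - t) ^ (-(1 / 4) : ℝ) := by
        conv_rhs => rw [← Real.rpow_one (1 - t)]
        rw [← Real.rpow_mul ht1.le, ← Real.rpow_add ht1]; norm_num
      calc pp n t ^ 2 * (t ^ (-(3 / 4) : ℝ) * (1 - t) ^ ((3 / 4) : ℝ)) * t ^ ((3 / 4) : ℝ) =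
          pp n t ^ 2 * (1 - t) ^ ((3 / 4) : ℝ) * (t ^ (-(3 / 4) : ℝ) * t ^ ((3 / 4) : ℝ)) := by
            ring
        _ = (1 - t) * pp n t ^ 2 * (1 - t) ^ (-(1 / 4) : ℝ) := by rw [e1, e2]; ring
    have h2 : ∀ t ∈ Ioo (0 : ℝ) 1, ENNReal.ofReal ((t * (1 - t)) ^ (-(1 / 2) : ℝ)) * F t =
        aJ t * H t := by
      intro t ht
      have ht1 : 0 < 1 - t := by linarith [ht.2]
      simp only [hH, hF, aJ]
      rw [sub_J t ht, ← mul_assoc (ENNReal.ofReal _) (ENNReal.ofReal _),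
        ← mul_assoc (ENNReal.ofReal _) (ENNReal.ofReal _),
        ← ENNReal.ofReal_mul (by have := ht.1; positivity),
        ← ENNReal.ofReal_mul (by have := ht.1; positivity)]
      congr 2
      rw [Real.mul_rpow ht.1.le ht1.le]
      have e1 : t ^ (-(5 / 4) : ℝ) * t ^ ((3 / 4) : ℝ) = t ^ (-(1 / 2) : ℝ) := by
        rw [← Real.rpow_add ht.1]; norm_num
      have e2 : (1 - t) ^ (-(3 / 4) : ℝ) =
          (1 - t) ^ (-(1 / 2) : ℝ) * (1 - t) ^ (-(1 / 4) : ℝ) := by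
        rw [← Real.rpow_add ht1]; norm_num
      calc t ^ (-(1 / 2) : ℝ) * (1 - t) ^ (-(1 / 2) : ℝ) * (1 - t) ^ (-(1 / 4) : ℝ) =
          (t ^ (-(5 / 4) : ℝ) * t ^ ((3 / 4) : ℝ)) *
            ((1 - t) ^ (-(1 / 2) : ℝ) * (1 - t) ^ (-(1 / 4) : ℝ)) := by rw [e1]; ring
        _ = t ^ (-(5 / 4) : ℝ) * (1 - t) ^ (-(3 / 4) : ℝ) * t ^ ((3 / 4) : ℝ) := by
            rw [e2]; ring
    rw [setLIntegral_congr_fun measurableSet_Ioo h1]
    refine (hGEN n hn F hFPS).trans ?_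
    rw [setLIntegral_congr_fun measurableSet_Ioo h2, ker_J hKER,
      ← ENNReal.ofReal_mul (by positivity)]
    refine ENNReal.ofReal_le_ofReal (le_of_eq ?_)
    field_simp
    ring
  -- second part
  have hI2 : ∫⁻ t in Ioo (0 : ℝ) 1, aJ t * ∫⁻ s in Ioo (0 : ℝ) t, c s =
      ENNReal.ofReal (2 * n) := by
    rw [tri_J aJ c aJ_meas hcm]
    have h1 : ∀ s ∈ Ioo (0 : ℝ) 1, c s * ∫⁻ t in Ioo s 1, aJ t =
        4 * ENNReal.ofReal ((1 - s) * pp n s ^ 2) := by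
      intro s hs
      have hs1 : 0 < 1 - s := by linarith [hs.2]
      have h2 : ∫⁻ t in Ioo s 1, aJ t = ENNReal.ofReal (4 * ((1 - s) / s) ^ ((1 / 4) : ℝ)) :=
        hKER.1 s hs.1 hs.2
      rw [h2]
      simp only [hc]
      rw [← ENNReal.ofReal_mul (by have := hs.1; positivity)]
      have h4 : (4 : ℝ≥0∞) = ENNReal.ofReal 4 := by norm_num
      rw [h4, ← ENNReal.ofReal_mul (by norm_num)]
      congr 1
      rw [Real.div_rpow hs1.le hs.1.le]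
      have e1 : s ^ ((1 / 4) : ℝ) ≠ 0 := (Real.rpow_pos_of_pos hs.1 _).ne'
      have e2 : (1 - s) ^ ((3 / 4) : ℝ) * (1 - s) ^ ((1 / 4) : ℝ) = 1 - s := by
        rw [← Real.rpow_add hs1]; norm_num
      calc pp n s ^ 2 * (s ^ ((1 / 4) : ℝ) * (1 - s) ^ ((3 / 4) : ℝ)) *
            (4 * ((1 - s) ^ ((1 / 4) : ℝ) / s ^ ((1 / 4) : ℝ))) =
          4 * (pp n s ^ 2 * ((1 - s) ^ ((3 / 4) : ℝ) * (1 - s) ^ ((1 / 4) : ℝ))) := by
            field_simp
        _ = 4 * ((1 - s) * pp n s ^ 2) := by rw [e2]; ring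
    rw [setLIntegral_congr_fun measurableSet_Ioo h1, lintegral_const_mul' _ _ (by norm_num)]
    have h3 : ∫⁻ s in Ioo (0 : ℝ) 1, ENNReal.ofReal ((1 - s) * pp n s ^ 2) =
        ENNReal.ofReal (n / 2) := by
      have h4 : Continuous fun s : ℝ => (1 - s) * pp n s ^ 2 := by fun_prop
      have h5 : IntegrableOn (fun s : ℝ => (1 - s) * pp n s ^ 2) (Ioo 0 1) :=
        (h4.integrableOn_Icc (a := 0) (b := 1)).mono_set Ioo_subset_Icc_self
      rw [← ofReal_integral_eq_lintegral_ofReal h5]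
      · congr 1
        rw [← hX0 n hn, Xm, intervalIntegral.integral_of_le zero_le_one,
          ← integral_Ioc_eq_integral_Ioo]
        refine setIntegral_congr_fun measurableSet_Ioc fun s _ => ?_
        simp
      · refine (ae_restrict_iff' measurableSet_Ioo).2 (Eventually.of_forall fun s hs => ?_)
        have : 0 ≤ 1 - s := by linarith [hs.2]
        positivity
    rw [h3]
    have h4 : (4 : ℝ≥0∞) = ENNReal.ofReal 4 := by norm_num
    rw [h4, ← ENNReal.ofReal_mul (by norm_num)]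
    congr 1
    ring
  -- combination
  have hmain : ∫⁻ t in Ioo (0 : ℝ) 1,
      ∫⁻ s in Ioo (0 : ℝ) t, ENNReal.ofReal (|pp n s| * |pp n t| / t) ≤
      ∫⁻ t in Ioo (0 : ℝ) 1, ENNReal.ofReal (1 / 2) *
        (d t * H t + aJ t * ∫⁻ s in Ioo (0 : ℝ) t, c s) := by
    refine setLIntegral_mono' measurableSet_Ioo fun t ht => ?_
    have h1 : d t * H t + aJ t * ∫⁻ s in Ioo (0 : ℝ) t, c s =
        ∫⁻ s in Ioo (0 : ℝ) t, (d t * bJ s + aJ t * c s) := by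
      rw [lintegral_add_left (bJ_meas.const_mul _), lintegral_const_mul _ bJ_meas,
        lintegral_const_mul _ hcm]
    rw [h1, ← lintegral_const_mul' _ _ ENNReal.ofReal_ne_top]
    refine setLIntegral_mono' measurableSet_Ioo fun s hs => ?_
    have hs1 : 0 < 1 - s := by linarith [hs.2, ht.2]
    have ht1 : 0 < 1 - t := by linarith [ht.2]
    have ht0 := ht.1
    have hs0 := hs.1
    simp only [hd, hc, aJ, bJ]
    rw [← ENNReal.ofReal_mul (by positivity), ← ENNReal.ofReal_mul (by positivity),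
      ← ENNReal.ofReal_add (by positivity) (by positivity),
      ← ENNReal.ofReal_mul (by norm_num)]
    exact ENNReal.ofReal_le_ofReal (pt_J (pp n s) (pp n t) s t hs.1 hs.2 ht.2)
  refine hmain.trans ?_
  have hadd : ∫⁻ t in Ioo (0 : ℝ) 1, (d t * H t + aJ t * ∫⁻ s in Ioo (0 : ℝ) t, c s) =
      (∫⁻ t in Ioo (0 : ℝ) 1, d t * H t) +
        ∫⁻ t in Ioo (0 : ℝ) 1, aJ t * ∫⁻ s in Ioo (0 : ℝ) t, c s :=
    lintegral_add_left (hdm.mul hHm) _
  rw [lintegral_const_mul' _ _ ENNReal.ofReal_ne_top, hadd, hI2]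
  calc ENNReal.ofReal (1 / 2) *
        ((∫⁻ t in Ioo (0 : ℝ) 1, d t * H t) + ENNReal.ofReal (2 * n)) ≤
      ENNReal.ofReal (1 / 2) * (ENNReal.ofReal (2 * n) + ENNReal.ofReal (2 * n)) := by
        gcongr
    _ = ENNReal.ofReal (2 * n) := by
        rw [← ENNReal.ofReal_add (by positivity) (by positivity),
          ← ENNReal.ofReal_mul (by norm_num)]
        congr 1
        ring

end Helper71.P4
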